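import Mathlib

/-!
# AB CardH (module D2c): the number of classes `g` modulo `f`, fixing `K`, with `g = 2` modulo `3`

`K` in `L = ℚ(ζ_f)`, `3 ∣ f`, no primitive cube root of unity in `K`: among the `φ(f)/[K:ℚ]` classes of `(ZMod f)ˣ`
which fix `K` exactly one half is `2` modulo `3`.
-/

set_option autoImplicit false

namespace Pool.Agent.H83.AB

open Finset

open scoped Classical in
theorem card_good (f : ℕ) [NeZero f] (h3 : 3 ∣ f) (L : Type*) [Field L] [NumberField L]
    [IsCyclotomicExtension {f} ℚ L] (K : Type*) [Field K] [NumberField K] (ι : K →+* L)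
    (hω : ∀ x : K, x ^ 2 + x + 1 ≠ 0) :
    2 * Module.finrank ℚ K *
      ((univ.filter fun g : (ZMod f)ˣ =>
        (∀ x : K, (IsCyclotomicExtension.Rat.galEquivZMod f L).symm g (ι x) = ι x) ∧
          (g : ZMod f).val % 3 = 2).card) = f.totient := by
  have hf : f ≠ 0 := NeZero.ne f
  have hgal : IsGalois ℚ L := IsCyclotomicExtension.isGalois {f} ℚ L
  set e := IsCyclotomicExtension.Rat.galEquivZMod f L with he
  set φ : K →ₐ[ℚ] L := ι.toRatAlgHom with hφ
  have hφι : ∀ x, φ x = ι x := fun _ => rfl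
  set M : IntermediateField ℚ L := φ.fieldRange with hM
  set H : Subgroup Gal(L/ℚ) := M.fixingSubgroup with hH
  -- the cube root of unity
  have hprim := IsCyclotomicExtension.zeta_spec f ℚ L
  obtain ⟨m, hm⟩ := h3
  have hm0 : m ≠ 0 := by rintro rfl; simp at hm; exact hf hm
  set ω : L := (IsCyclotomicExtension.zeta f ℚ L) ^ m with hωdef
  have hωp : IsPrimitiveRoot ω 3 := hprim.pow (Nat.pos_of_ne_zero hf) (by rw [hm, mul_comm])
  have hω3 : ω ^ 3 = 1 := hωp.pow_eq_one
  have hω1 : ω ≠ 1 := hωp.ne_one (by norm_num)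
  have hω2 : ω ^ 2 ≠ ω := by
    intro h
    apply hω1
    have h0 : ω ≠ 0 := hωp.ne_zero (by norm_num)
    have h1 : ω * ω = ω * 1 := by rw [mul_one, ← sq, h]
    exact mul_left_cancel₀ h0 h1
  have hωq : ω ^ 2 + ω + 1 = 0 := by
    have h1 : (ω - 1) * (ω ^ 2 + ω + 1) = 0 := by
      have : (ω - 1) * (ω ^ 2 + ω + 1) = ω ^ 3 - 1 := by ring
      rw [this, hω3, sub_self]
    exact (mul_eq_zero.1 h1).resolve_left (sub_ne_zero.2 hω1)
  have hact : ∀ σ : Gal(L/ℚ), σ ω = ω ^ ((e σ : ZMod f).val) := by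
    intro σ
    refine IsCyclotomicExtension.Rat.galEquivZMod_apply_of_pow_eq f L σ ?_
    rw [hωdef, ← pow_mul, mul_comm m f, pow_mul, hprim.pow_eq_one, one_pow]
  have hcop : ∀ g : (ZMod f)ˣ, (g : ZMod f).val % 3 = 1 ∨ (g : ZMod f).val % 3 = 2 := by
    intro g
    have h1 : ((g : ZMod f).val).Coprime f := ZMod.val_coe_unit_coprime g
    have h2 : ((g : ZMod f).val).Coprime 3 := Nat.Coprime.coprime_dvd_right ⟨m, hm⟩ h1
    have h4 : ¬ 3 ∣ (g : ZMod f).val := by
      intro h
      have := Nat.dvd_gcd h (dvd_refl 3)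
      rw [h2] at this
      omega
    omega
  have hpow : ∀ a : ℕ, ω ^ a = ω ^ (a % 3) := by
    intro a
    conv_lhs => rw [← Nat.div_add_mod a 3]
    rw [pow_add, pow_mul, hω3, one_pow, one_mul]
  have hσ1 : ∀ σ : Gal(L/ℚ), σ ω = ω ↔ ((e σ : ZMod f).val) % 3 = 1 := by
    intro σ
    rw [hact σ, hpow]
    rcases hcop (e σ) with h | h
    · rw [h, pow_one]; simp
    · rw [h]
      constructor
      · intro h'; exact absurd h' hω2
      · intro h'; omega
  have hσ2 : ∀ σ : Gal(L/ℚ), σ ω ≠ ω → σ ω = ω ^ 2 := by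
    intro σ hσ
    rw [hact σ, hpow]
    rcases hcop (e σ) with h | h
    · exact absurd ((hσ1 σ).2 h) hσ
    · rw [h]
  -- some element of `H` moves `ω`
  obtain ⟨h₀, hh₀, hmove⟩ : ∃ h₀ ∈ H, h₀ ω ≠ ω := by
    by_contra hcon
    push Not at hcon
    have h1 : ω ∈ IntermediateField.fixedField H := by
      rw [IntermediateField.mem_fixedField_iff]
      exact hcon
    rw [hH, IsGalois.fixedField_fixingSubgroup] at h1
    obtain ⟨x, hx⟩ := h1
    apply hω x
    apply ι.injective
    rw [map_add, map_add, map_pow, map_one, map_zero]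
    have hx' : ι x = ω := hx
    rw [hx', hωq]
  -- the two halves
  have hHmem : ∀ σ : Gal(L/ℚ), σ ∈ H ↔ ∀ x : K, σ (ι x) = ι x := by
    intro σ
    rw [hH, IntermediateField.mem_fixingSubgroup_iff]
    constructor
    · intro h x
      exact h (ι x) ⟨x, rfl⟩
    · rintro h _ ⟨x, rfl⟩
      exact h x
  set S1 : Finset Gal(L/ℚ) := univ.filter fun σ => σ ∈ H ∧ σ ω = ω with hS1
  set S2 : Finset Gal(L/ℚ) := univ.filter fun σ => σ ∈ H ∧ σ ω ≠ ω with hS2
  have hcard12 : S1.card = S2.card := by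
    refine Finset.card_bij (fun σ _ => h₀ * σ) ?_ ?_ ?_
    · intro σ hσ
      rw [hS1, mem_filter] at hσ
      rw [hS2, mem_filter]
      refine ⟨mem_univ _, H.mul_mem hh₀ hσ.2.1, ?_⟩
      rw [AlgEquiv.mul_apply, hσ.2.2]
      exact hmove
    · intro σ _ τ _ h
      exact mul_left_cancel h
    · intro τ hτ
      rw [hS2, mem_filter] at hτ
      refine ⟨h₀⁻¹ * τ, ?_, by simp⟩
      rw [hS1, mem_filter]
      refine ⟨mem_univ _, H.mul_mem (H.inv_mem hh₀) hτ.2.1, ?_⟩
      have h1 : τ ω = h₀ ω := by rw [hσ2 τ hτ.2.2, hσ2 h₀ hmove]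
      rw [AlgEquiv.mul_apply, h1]
      exact h₀.symm_apply_apply ω
  have hcardH : Nat.card H = S1.card + S2.card := by
    have h1 : Nat.card H = (univ.filter fun σ : Gal(L/ℚ) => σ ∈ H).card := by
      rw [Nat.card_eq_fintype_card, Fintype.card_subtype]
    rw [h1, hS1, hS2, ← Finset.card_filter_add_card_filter_not (s := univ.filter fun σ : Gal(L/ℚ) => σ ∈ H)
      (fun σ => σ ω = ω), filter_filter, filter_filter]
  have hfin : Module.finrank ℚ K * Nat.card H = f.totient := by
    rw [hH, IsGalois.card_fixingSubgroup_eq_finrank]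
    have h1 : Module.finrank ℚ K = Module.finrank ℚ M :=
      (AlgEquiv.ofInjectiveField φ).toLinearEquiv.finrank_eq
    rw [h1, Module.finrank_mul_finrank, IsCyclotomicExtension.finrank L
      (Polynomial.cyclotomic.irreducible_rat (Nat.pos_of_ne_zero hf))]
  have hset : (univ.filter fun g : (ZMod f)ˣ => (∀ x : K, e.symm g (ι x) = ι x) ∧
      (g : ZMod f).val % 3 = 2).card = S2.card := by
    refine Finset.card_bij (fun g _ => e.symm g) ?_ ?_ ?_
    · intro g hg
      rw [mem_filter] at hg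
      rw [hS2, mem_filter]
      refine ⟨mem_univ _, (hHmem _).2 hg.2.1, ?_⟩
      intro h
      rw [hσ1, MulEquiv.apply_symm_apply] at h
      omega
    · intro g _ g' _ h
      exact e.symm.injective h
    · intro σ hσ
      rw [hS2, mem_filter] at hσ
      refine ⟨e σ, ?_, by simp⟩
      rw [mem_filter]
      refine ⟨mem_univ _, ?_, ?_⟩
      · intro x
        rw [MulEquiv.symm_apply_apply]
        exact (hHmem σ).1 hσ.2.1 x
      · rcases hcop (e σ) with h | h
        · exact absurd ((hσ1 σ).2 h) hσ.2.2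
        · exact h
  rw [hset, ← hfin, hcardH, hcard12]
  ring

/-- the set of the residues: same number of elements, all below `f` and prime to `f` -/
theorem card_image_val (f : ℕ) [NeZero f] (S : Finset (ZMod f)ˣ) :
    (S.image fun g : (ZMod f)ˣ => (g : ZMod f).val).card = S.card ∧
      ∀ a ∈ S.image fun g : (ZMod f)ˣ => (g : ZMod f).val, a < f ∧ a.Coprime f := by
  constructor
  · refine Finset.card_image_of_injective _ fun g g' h => ?_
    exact Units.ext (ZMod.val_injective f h)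
  · intro a ha
    obtain ⟨g, -, rfl⟩ := mem_image.1 ha
    exact ⟨ZMod.val_lt _, ZMod.val_coe_unit_coprime g⟩

open scoped Classical in
/-- the good classes: all below `f`, prime to `f`, of density `1 / (2 [K:ℚ])` -/
theorem good_density (f : ℕ) [NeZero f] (h3 : 3 ∣ f) (L : Type*) [Field L] [NumberField L]
    [IsCyclotomicExtension {f} ℚ L] (K : Type*) [Field K] [NumberField K] (ι : K →+* L)
    (hω : ∀ x : K, x ^ 2 + x + 1 ≠ 0) :
    ∃ A : Finset ℕ, (∀ a ∈ A, a < f ∧ a.Coprime f) ∧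
      (A.card : ℝ) / (f.totient : ℝ) = 1 / (2 * (Module.finrank ℚ K : ℝ)) ∧
      ∀ a ∈ A, ∃ g : (ZMod f)ˣ, (g : ZMod f).val = a ∧ a % 3 = 2 ∧
        ∀ x : K, (IsCyclotomicExtension.Rat.galEquivZMod f L).symm g (ι x) = ι x := by
  have h1 := card_good f h3 L K ι hω
  set S := (univ.filter fun g : (ZMod f)ˣ =>
        (∀ x : K, (IsCyclotomicExtension.Rat.galEquivZMod f L).symm g (ι x) = ι x) ∧
          (g : ZMod f).val % 3 = 2) with hS
  obtain ⟨h2, h4⟩ := card_image_val f S
  refine ⟨S.image fun g : (ZMod f)ˣ => (g : ZMod f).val, h4, ?_, ?_⟩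
  · rw [h2]
    have h5 : (0 : ℝ) < (f.totient : ℝ) := by
      exact_mod_cast Nat.totient_pos.2 (Nat.pos_of_ne_zero (NeZero.ne f))
    have h6 : (0 : ℝ) < (Module.finrank ℚ K : ℝ) := by exact_mod_cast Module.finrank_pos
    rw [div_eq_div_iff h5.ne' (by positivity), ← h1]
    push_cast
    ring
  · intro a ha
    obtain ⟨g, hg, rfl⟩ := mem_image.1 ha
    rw [hS, mem_filter] at hg
    exact ⟨g, rfl, hg.2.2, hg.2.1⟩

end Pool.Agent.H83.AB
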