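import Pool.Agent.H83.AB.Good

/-!
# AB CardPm (module M7, the count)

`K` in `L = ℚ(ζ_f)`, `3 ∣ f`, no primitive cube root of unity in `K`.  The classes `g` modulo `f` which fix `K` and are
`2` modulo `3`, together with the classes which act on `K` as `-1` and are `1` modulo `3`: their number is
`φ(f) / [K:ℚ]`.
-/

set_option autoImplicit false

namespace Pool.Agent.H83.AB

open Finset

theorem val_neg_mod (f : ℕ) [NeZero f] (h3 : 3 ∣ f) (g : (ZMod f)ˣ) :
    ((-g : (ZMod f)ˣ) : ZMod f).val % 3 = 2 ↔ (g : ZMod f).val % 3 = 1 := by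
  have h1 : chi3 f h3 (-g) = chi3 f h3 (-1) * chi3 f h3 g := by rw [← map_mul, neg_one_mul]
  rw [← chi3_eq f h3, h1, chi3_neg_one]
  have h2 := chi3_eq f h3 g
  rcases val_mod_three f h3 g with h | h
  · have h5 : chi3 f h3 g = 1 := (Int.units_eq_one_or _).resolve_right fun h4 => by
      have := h2.1 h4
      omega
    rw [h5]
    simp [h]
  · rw [h2.2 h, h]
    exact ⟨fun h => absurd h (by decide), fun h => by omega⟩

theorem act_neg (f : ℕ) [NeZero f] (L : Type*) [Field L] [NumberField L]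
    [IsCyclotomicExtension {f} ℚ L] (K : Type*) [Field K] (ι : K →+* L) (g : (ZMod f)ˣ) :
    (∀ x : K, (IsCyclotomicExtension.Rat.galEquivZMod f L).symm (-g) (ι x) = ι x) ↔
      ∀ x : K, (IsCyclotomicExtension.Rat.galEquivZMod f L).symm g (ι x) =
        (IsCyclotomicExtension.Rat.galEquivZMod f L).symm (-1) (ι x) := by
  set e := IsCyclotomicExtension.Rat.galEquivZMod f L with he
  have h1 : e.symm (-g) = e.symm (-1) * e.symm g := by rw [← map_mul, neg_one_mul]
  have h2 : e.symm (-1) * e.symm (-1) = 1 := by rw [← map_mul, neg_mul_neg, one_mul, map_one]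
  have h4 : ∀ y : L, e.symm (-1) (e.symm (-1) y) = y := by
    intro y
    rw [← AlgEquiv.mul_apply, h2, AlgEquiv.one_apply]
  rw [h1]
  constructor
  · intro h x
    have h5 := h x
    rw [AlgEquiv.mul_apply] at h5
    rw [← h4 (e.symm g (ι x)), h5]
  · intro h x
    rw [AlgEquiv.mul_apply, h x, h4]

open scoped Classical in
theorem card_pm (f : ℕ) [NeZero f] (h3 : 3 ∣ f) (L : Type*) [Field L] [NumberField L]
    [IsCyclotomicExtension {f} ℚ L] (K : Type*) [Field K] [NumberField K] (ι : K →+* L)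
    (hω : ∀ x : K, x ^ 2 + x + 1 ≠ 0) :
    Module.finrank ℚ K *
      ((univ.filter fun g : (ZMod f)ˣ =>
        ((g : ZMod f).val % 3 = 2 ∧
          ∀ x : K, (IsCyclotomicExtension.Rat.galEquivZMod f L).symm g (ι x) = ι x) ∨
        ((g : ZMod f).val % 3 = 1 ∧
          ∀ x : K, (IsCyclotomicExtension.Rat.galEquivZMod f L).symm g (ι x) =
            (IsCyclotomicExtension.Rat.galEquivZMod f L).symm (-1) (ι x))).card) = f.totient := by
  rw [← card_good f h3 L K ι hω]
  set S := (univ.filter fun g : (ZMod f)ˣ =>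
        (∀ x : K, (IsCyclotomicExtension.Rat.galEquivZMod f L).symm g (ι x) = ι x) ∧
          (g : ZMod f).val % 3 = 2) with hS
  have h1 : (univ.filter fun g : (ZMod f)ˣ =>
        ((g : ZMod f).val % 3 = 2 ∧
          ∀ x : K, (IsCyclotomicExtension.Rat.galEquivZMod f L).symm g (ι x) = ι x) ∨
        ((g : ZMod f).val % 3 = 1 ∧
          ∀ x : K, (IsCyclotomicExtension.Rat.galEquivZMod f L).symm g (ι x) =
            (IsCyclotomicExtension.Rat.galEquivZMod f L).symm (-1) (ι x))) =
      S ∪ S.image fun g => -g := by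
    ext g
    rw [mem_filter, mem_union, mem_image, ← act_neg, ← val_neg_mod f h3]
    constructor
    · rintro ⟨-, h | h⟩
      · left
        rw [hS, mem_filter]
        exact ⟨mem_univ _, h.2, h.1⟩
      · right
        refine ⟨-g, ?_, neg_neg g⟩
        rw [hS, mem_filter]
        exact ⟨mem_univ _, h.2, h.1⟩
    · rintro (h | ⟨g', h, rfl⟩)
      · rw [hS, mem_filter] at h
        exact ⟨mem_univ _, Or.inl ⟨h.2.2, h.2.1⟩⟩
      · rw [hS, mem_filter] at h
        refine ⟨mem_univ _, Or.inr ?_⟩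
        rw [neg_neg]
        exact ⟨h.2.2, h.2.1⟩
  have h2 : Disjoint S (S.image fun g => -g) := by
    rw [Finset.disjoint_left]
    intro g hg hg'
    obtain ⟨g', h, rfl⟩ := mem_image.1 hg'
    rw [hS, mem_filter] at h hg
    have h4 := (val_neg_mod f h3 g').1 hg.2.2
    omega
  rw [h1, card_union_of_disjoint h2, card_image_of_injective _ neg_injective]
  ring

open scoped Classical in
/-- the classes of module M7 -/
theorem density_pm (f : ℕ) [NeZero f] (h3 : 3 ∣ f) (L : Type*) [Field L] [NumberField L]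
    [IsCyclotomicExtension {f} ℚ L] (K : Type*) [Field K] [NumberField K] (ι : K →+* L)
    (hω : ∀ x : K, x ^ 2 + x + 1 ≠ 0) :
    ∃ A : Finset ℕ, (∀ a ∈ A, a < f ∧ a.Coprime f) ∧
      (A.card : ℝ) / (f.totient : ℝ) = 1 / (Module.finrank ℚ K : ℝ) ∧
      ∀ a ∈ A, ∃ g : (ZMod f)ˣ, (g : ZMod f).val = a ∧
        ((a % 3 = 2 ∧ ∀ x : K, (IsCyclotomicExtension.Rat.galEquivZMod f L).symm g (ι x) = ι x) ∨
          (a % 3 = 1 ∧ ∀ x : K, (IsCyclotomicExtension.Rat.galEquivZMod f L).symm g (ι x) =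
            (IsCyclotomicExtension.Rat.galEquivZMod f L).symm (-1) (ι x))) := by
  have h1 := card_pm f h3 L K ι hω
  set S := (univ.filter fun g : (ZMod f)ˣ =>
        ((g : ZMod f).val % 3 = 2 ∧
          ∀ x : K, (IsCyclotomicExtension.Rat.galEquivZMod f L).symm g (ι x) = ι x) ∨
        ((g : ZMod f).val % 3 = 1 ∧
          ∀ x : K, (IsCyclotomicExtension.Rat.galEquivZMod f L).symm g (ι x) =
            (IsCyclotomicExtension.Rat.galEquivZMod f L).symm (-1) (ι x))) with hS
  obtain ⟨h2, h4⟩ := card_image_val f S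
  refine ⟨S.image fun g : (ZMod f)ˣ => (g : ZMod f).val, h4, ?_, ?_⟩
  · rw [h2]
    have h5 : (0 : ℝ) < (f.totient : ℝ) := by
      exact_mod_cast Nat.totient_pos.2 (Nat.pos_of_ne_zero (NeZero.ne f))
    have h6 : (0 : ℝ) < (Module.finrank ℚ K : ℝ) := by exact_mod_cast Module.finrank_pos
    rw [div_eq_div_iff h5.ne' (by positivity), ← h1]
    push_cast
    ring
  · intro a ha
    obtain ⟨g, hg, rfl⟩ := mem_image.1 ha
    rw [hS, mem_filter] at hg
    exact ⟨g, rfl, hg.2⟩

end Pool.Agent.H83.AB
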