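import Pool.Agent.H83.AB.Good

/-!
# AB Exact: the exact density of the good classes

`K` in `L = ℚ(ζ_f)`, `3 ∣ f`, no primitive cube root of unity in `K`, `c` the complex conjugation of `K`.  The class `g`
modulo `f` is good iff the cyclic group generated by `(g, g mod 3)` in `Gal(K/ℚ) × {1, -1}` contains `(1, -1)` or
`(c, 1)`.
-/

set_option autoImplicit false

namespace Pool.Agent.H83.AB

open Finset

open scoped Classical in
theorem card_preimage {G Γ : Type*} [CommGroup G] [Group Γ] [Fintype G] [Fintype Γ] (Φ : G →* Γ)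
    (hΦ : Function.Surjective Φ) (P : Γ → Prop) :
    (univ.filter fun g : G => P (Φ g)).card * Fintype.card Γ =
      (univ.filter fun x : Γ => P x).card * Fintype.card G := by
  have h1 : (univ.filter fun g : G => P (Φ g)).card =
      ∑ x ∈ univ.filter (fun x : Γ => P x), ((univ.filter fun g : G => P (Φ g)).filter fun g => Φ g = x).card := by
    refine card_eq_sum_card_fiberwise fun g hg => ?_
    rw [mem_coe, mem_filter] at hg
    rw [mem_coe, mem_filter]
    exact ⟨mem_univ _, hg.2⟩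
  have h2 : ∀ x ∈ univ.filter (fun x : Γ => P x),
      ((univ.filter fun g : G => P (Φ g)).filter fun g => Φ g = x).card =
        (univ.filter fun g : G => Φ g = 1).card := by
    intro x hx
    rw [mem_filter] at hx
    have h3 := MonoidHom.card_fiber_eq_of_mem_range Φ (x := x) (y := 1) (hΦ x) ⟨1, map_one Φ⟩
    rw [← h3]
    congr 1
    ext g
    simp only [mem_filter, mem_univ, true_and]
    constructor
    · exact fun h => h.2
    · intro h
      exact ⟨by rw [h]; exact hx.2, h⟩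
  rw [h1, sum_congr rfl h2, sum_const, smul_eq_mul, mul_assoc, card_ker Φ hΦ]

universe u

variable (f : ℕ) [NeZero f] (L : Type u) [Field L] [NumberField L]
    [IsCyclotomicExtension {f} ℚ L] (K : Type*) [Field K] [NumberField K] (ι : K →+* L)

/-- the restriction to `K` -/
theorem exists_res :
    ∃ π : (ZMod f)ˣ →* (K ≃ₐ[ℚ] K), Function.Surjective π ∧
      ∀ (g : (ZMod f)ˣ) (x : K), ι (π g x) = (IsCyclotomicExtension.Rat.galEquivZMod f L).symm g (ι x) := by
  classical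
  have hab : IsAbelianGalois ℚ L := IsCyclotomicExtension.isAbelianGalois {f} ℚ L
  set φ : K →ₐ[ℚ] L := ι.toRatAlgHom with hφ
  set M : IntermediateField ℚ L := φ.fieldRange with hM
  have habM : IsAbelianGalois ℚ M := IsAbelianGalois.of_algHom M.val
  set eKM : K ≃ₐ[ℚ] M := AlgEquiv.ofInjectiveField φ with heKM
  have hcoe : ∀ x : K, ((eKM x : M) : L) = ι x := fun _ => rfl
  refine ⟨((AlgEquiv.autCongr eKM).symm.toMonoidHom.comp (AlgEquiv.restrictNormalHom M)).comp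
      (IsCyclotomicExtension.Rat.galEquivZMod f L).symm.toMonoidHom, ?_, ?_⟩
  · intro y
    obtain ⟨σ, hσ⟩ := AlgEquiv.restrictNormalHom_surjective (F := ℚ) (K₁ := M) L (AlgEquiv.autCongr eKM y)
    refine ⟨IsCyclotomicExtension.Rat.galEquivZMod f L σ, ?_⟩
    show (AlgEquiv.autCongr eKM).symm (AlgEquiv.restrictNormalHom M
      ((IsCyclotomicExtension.Rat.galEquivZMod f L).symm
        (IsCyclotomicExtension.Rat.galEquivZMod f L σ))) = y
    rw [MulEquiv.symm_apply_apply, hσ, MulEquiv.symm_apply_apply]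
  · intro g x
    set σ := (IsCyclotomicExtension.Rat.galEquivZMod f L).symm g with hσ
    show ι ((AlgEquiv.autCongr eKM).symm (AlgEquiv.restrictNormalHom M σ) x) = σ (ι x)
    have h1 : (AlgEquiv.autCongr eKM).symm (AlgEquiv.restrictNormalHom M σ) x =
        eKM.symm (AlgEquiv.restrictNormalHom M σ (eKM x)) := rfl
    rw [h1, ← hcoe, AlgEquiv.apply_symm_apply, ← hcoe]
    exact AlgEquiv.restrictNormal_commutes σ M (eKM x)

open scoped Classical in
/-- THE EXACT DENSITY OF THE GOOD CLASSES. -/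
theorem good_classes_exact (h3 : 3 ∣ f) (hω : ∀ x : K, x ^ 2 + x + 1 ≠ 0) (c : K ≃ₐ[ℚ] K)
    (hc : ∀ x : K, ι (c x) = (IsCyclotomicExtension.Rat.galEquivZMod f L).symm (-1) (ι x)) :
    ∃ A : Finset ℕ, (∀ a ∈ A, a < f ∧ a.Coprime f) ∧
      (A.card : ℝ) / (f.totient : ℝ) =
        (Nat.card {x : (K ≃ₐ[ℚ] K) × ℤˣ // (1, -1) ∈ Subgroup.zpowers x ∨ (c, 1) ∈ Subgroup.zpowers x} : ℝ) /
          (2 * (Module.finrank ℚ K : ℝ)) ∧
      (∀ a ∈ A, ∃ h : (ZMod f)ˣ, (h : ZMod f).val % 3 = 2 ∧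
        (∀ x : K, (IsCyclotomicExtension.Rat.galEquivZMod f L).symm h (ι x) = ι x) ∧
        ∃ k : ℕ, (h : ZMod f) = (a : ZMod f) ^ k ∨ (h : ZMod f) = -(a : ZMod f) ^ k) ∧
      ∀ g h : (ZMod f)ˣ, (h : ZMod f).val % 3 = 2 →
        (∀ x : K, (IsCyclotomicExtension.Rat.galEquivZMod f L).symm h (ι x) = ι x) →
        (∃ k : ℕ, h = g ^ k ∨ h = -g ^ k) → (g : ZMod f).val ∈ A := by
  obtain ⟨π, hπ, hπι⟩ := exists_res f L K ι
  obtain ⟨h₁, hh₁, hfix₁⟩ := exists_two f L K ι h3 hω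
  have hfix : ∀ h : (ZMod f)ˣ, π h = 1 ↔
      ∀ x : K, (IsCyclotomicExtension.Rat.galEquivZMod f L).symm h (ι x) = ι x := by
    intro h
    constructor
    · intro h1 x
      rw [← hπι, h1, AlgEquiv.one_apply]
    · intro h1
      ext x
      apply ι.injective
      rw [hπι, h1, AlgEquiv.one_apply]
  have hgal : IsGalois ℚ K := by
    have hab : IsAbelianGalois ℚ L := IsCyclotomicExtension.isAbelianGalois {f} ℚ L
    set φ : K →ₐ[ℚ] L := ι.toRatAlgHom with hφ
    have habM : IsAbelianGalois ℚ K := IsAbelianGalois.of_algHom φ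
    infer_instance
  set χ := chi3 f h3 with hχ
  have hπ₁ : π h₁ = 1 := (hfix h₁).2 hfix₁
  have hχ₁ : χ h₁ = -1 := (chi3_eq f h3 h₁).2 hh₁
  have hπc : π (-1) = c := by
    ext x
    apply ι.injective
    rw [hπι, hc]
  have hχc : χ (-1) = -1 := chi3_neg_one f h3
  have hcc : c * c = 1 := by
    rw [← hπc, ← map_mul]
    simp
  set Φ : (ZMod f)ˣ →* (K ≃ₐ[ℚ] K) × ℤˣ := π.prod χ with hΦ
  have hΦa : ∀ g, Φ g = (π g, χ g) := fun _ => rfl
  have hΦs : Function.Surjective Φ := by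
    rintro ⟨σ, s⟩
    obtain ⟨g, hg⟩ := hπ σ
    rcases Int.units_eq_one_or (χ g) with h1 | h1 <;> rcases Int.units_eq_one_or s with h2 | h2
    · exact ⟨g, by rw [hΦa, hg, h1, h2]⟩
    · exact ⟨g * h₁, by rw [hΦa, map_mul, map_mul, hg, hπ₁, hχ₁, h1, h2, mul_one, one_mul]⟩
    · exact ⟨g * h₁, by rw [hΦa, map_mul, map_mul, hg, hπ₁, hχ₁, h1, h2, mul_one]; rfl⟩
    · exact ⟨g, by rw [hΦa, hg, h1, h2]⟩
  set P : (K ≃ₐ[ℚ] K) × ℤˣ → Prop := fun x => (1, -1) ∈ Subgroup.zpowers x ∨ (c, 1) ∈ Subgroup.zpowers x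
    with hP
  -- powers
  have hpow : ∀ (x y : (K ≃ₐ[ℚ] K) × ℤˣ), y ∈ Subgroup.zpowers x ↔ ∃ k : ℕ, x ^ k = y := by
    intro x y
    rw [← mem_powers_iff_mem_zpowers]
    exact Submonoid.mem_powers_iff _ _
  have hgood : ∀ g : (ZMod f)ˣ, P (Φ g) ↔ ∃ h : (ZMod f)ˣ, π h = 1 ∧ χ h = -1 ∧
      ∃ k : ℕ, h = g ^ k ∨ h = -g ^ k := by
    intro g
    rw [hP]
    simp only
    rw [hpow, hpow]
    constructor
    · rintro (⟨k, hk⟩ | ⟨k, hk⟩)
      · rw [← map_pow, hΦa, Prod.mk.injEq] at hk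
        exact ⟨g ^ k, hk.1, hk.2, k, Or.inl rfl⟩
      · rw [← map_pow, hΦa, Prod.mk.injEq] at hk
        refine ⟨-g ^ k, ?_, ?_, k, Or.inr rfl⟩
        · rw [← neg_one_mul, map_mul, hk.1, hπc, hcc]
        · rw [← neg_one_mul, map_mul, hk.2, hχc, mul_one]
    · rintro ⟨h, h1, h2, k, rfl | rfl⟩
      · left
        exact ⟨k, by rw [← map_pow, hΦa, h1, h2]⟩
      · right
        refine ⟨k, ?_⟩
        rw [← neg_one_mul, map_mul, hπc] at h1
        rw [← neg_one_mul, map_mul, hχc] at h2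
        rw [← map_pow, hΦa]
        have h4 : π (g ^ k) = c := by
          calc π (g ^ k) = c * c * π (g ^ k) := by rw [hcc, one_mul]
            _ = c := by rw [mul_assoc, h1, mul_one]
        have h5 : χ (g ^ k) = 1 := by
          rcases Int.units_eq_one_or (χ (g ^ k)) with h6 | h6
          · exact h6
          · rw [h6] at h2
            exact absurd h2 (by decide)
        rw [h4, h5]
  set S : Finset (ZMod f)ˣ := univ.filter fun g => P (Φ g) with hS
  obtain ⟨h4, h5⟩ := card_image_val f S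
  have hfin : (0 : ℝ) < (Module.finrank ℚ K : ℝ) := by exact_mod_cast Module.finrank_pos
  have htot : (0 : ℝ) < (f.totient : ℝ) := by
    exact_mod_cast Nat.totient_pos.2 (Nat.pos_of_ne_zero (NeZero.ne f))
  refine ⟨S.image fun g : (ZMod f)ˣ => (g : ZMod f).val, h5, ?_, ?_, ?_⟩
  · rw [h4]
    have h6 : S.card * Fintype.card ((K ≃ₐ[ℚ] K) × ℤˣ) =
        (univ.filter fun x : (K ≃ₐ[ℚ] K) × ℤˣ => P x).card * Fintype.card (ZMod f)ˣ := by
      rw [hS]
      convert card_preimage Φ hΦs P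
    have h7 : Fintype.card ((K ≃ₐ[ℚ] K) × ℤˣ) = 2 * Module.finrank ℚ K := by
      rw [Fintype.card_prod, ← Nat.card_eq_fintype_card, IsGalois.card_aut_eq_finrank,
        Fintype.card_units_int, mul_comm]
    have h8 : Fintype.card (ZMod f)ˣ = f.totient := ZMod.card_units_eq_totient f
    have h9 : Nat.card {x : (K ≃ₐ[ℚ] K) × ℤˣ // (1, -1) ∈ Subgroup.zpowers x ∨ (c, 1) ∈ Subgroup.zpowers x} =
        (univ.filter fun x : (K ≃ₐ[ℚ] K) × ℤˣ => P x).card := by
      rw [Nat.card_eq_fintype_card, Fintype.card_subtype]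
    rw [h7, h8] at h6
    have h10 : ((S.card * (2 * Module.finrank ℚ K) : ℕ) : ℝ) =
        (((univ.filter fun x : (K ≃ₐ[ℚ] K) × ℤˣ => P x).card * f.totient : ℕ) : ℝ) := by rw [h6]
    rw [← h9] at h10
    push_cast at h10
    exact (div_eq_div_iff htot.ne' (by positivity)).2 h10
  · intro a ha
    obtain ⟨g, hg, rfl⟩ := mem_image.1 ha
    rw [hS, mem_filter] at hg
    obtain ⟨h, hh1, hh2, k, hk⟩ := (hgood g).1 hg.2
    refine ⟨h, (chi3_eq f h3 h).1 hh2, (hfix h).1 hh1, k, ?_⟩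
    rw [ZMod.natCast_zmod_val]
    rcases hk with hk | hk
    · left; rw [hk, Units.val_pow_eq_pow_val]
    · right; rw [hk, Units.val_neg, Units.val_pow_eq_pow_val]
  · intro g h hh1 hh2 hk
    refine mem_image.2 ⟨g, ?_, rfl⟩
    rw [hS, mem_filter]
    exact ⟨mem_univ _, (hgood g).2 ⟨h, (hfix h).2 hh2, (chi3_eq f h3 h).2 hh1, hk⟩⟩

end Pool.Agent.H83.AB
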