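import Pool.Agent.H83.AB.GoodGrp
import Pool.Agent.H83.AB.CardH

/-!
# AB Good: the good classes modulo `f`

`K` in `L = ℚ(ζ_f)`, `3 ∣ f`, no primitive cube root of unity in `K`.  A class `g` modulo `f` is good if some `h = g ^ k` or
`h = -g ^ k` fixes `K` and is `2` modulo `3`.  The good classes have density at least `1 / [K:ℚ]`; at least `1 - 1 / 2 ^ m` if
`K` is cyclic and `2 ^ m ∣ [K:ℚ]`; all classes are good if `K` is real.
-/

set_option autoImplicit false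

namespace Pool.Agent.H83.AB

open Finset

section
variable (f : ℕ) [NeZero f]

omit [NeZero f] in
theorem val_mod_three (h3 : 3 ∣ f) (g : (ZMod f)ˣ) :
    (g : ZMod f).val % 3 = 1 ∨ (g : ZMod f).val % 3 = 2 := by
  have h1 : ((g : ZMod f).val).Coprime f := ZMod.val_coe_unit_coprime g
  have h2 : ((g : ZMod f).val).Coprime 3 := Nat.Coprime.coprime_dvd_right h3 h1
  have h4 : ¬ 3 ∣ (g : ZMod f).val := by
    intro h
    have := Nat.dvd_gcd h (dvd_refl 3)
    rw [h2] at this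
    omega
  omega

/-- the character modulo `3` -/
def chi3 (h3 : 3 ∣ f) : (ZMod f)ˣ →* ℤˣ where
  toFun g := if (g : ZMod f).val % 3 = 1 then 1 else -1
  map_one' := by
    have h1 : ((1 : (ZMod f)ˣ) : ZMod f).val % 3 = 1 := by
      have hf3 : 3 ≤ f := Nat.le_of_dvd (Nat.pos_of_ne_zero (NeZero.ne f)) h3
      have : Fact (1 < f) := ⟨by omega⟩
      rw [Units.val_one, ZMod.val_one]
    rw [if_pos h1]
  map_mul' g h := by
    have h1 : ((g * h : (ZMod f)ˣ) : ZMod f).val % 3 = ((g : ZMod f).val % 3) * ((h : ZMod f).val % 3) % 3 := by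
      rw [Units.val_mul, ZMod.val_mul, Nat.mod_mod_of_dvd _ h3, Nat.mul_mod]
    show (if ((g * h : (ZMod f)ˣ) : ZMod f).val % 3 = 1 then (1 : ℤˣ) else -1) =
      (if (g : ZMod f).val % 3 = 1 then (1 : ℤˣ) else -1) * (if (h : ZMod f).val % 3 = 1 then (1 : ℤˣ) else -1)
    rw [h1]
    rcases val_mod_three f h3 g with h2 | h2 <;> rcases val_mod_three f h3 h with h4 | h4 <;>
      rw [h2, h4] <;> decide

theorem chi3_eq (h3 : 3 ∣ f) (g : (ZMod f)ˣ) : chi3 f h3 g = -1 ↔ (g : ZMod f).val % 3 = 2 := by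
  show (if (g : ZMod f).val % 3 = 1 then (1 : ℤˣ) else -1) = -1 ↔ _
  rcases val_mod_three f h3 g with h | h
  · rw [if_pos h, h]
    exact ⟨fun h => absurd h (by decide), fun h => by omega⟩
  · rw [if_neg (by omega), h]
    simp

theorem chi3_neg_one (h3 : 3 ∣ f) : chi3 f h3 (-1) = -1 := by
  rw [chi3_eq]
  have hf3 : 3 ≤ f := Nat.le_of_dvd (Nat.pos_of_ne_zero (NeZero.ne f)) h3
  obtain ⟨m, hm⟩ := h3
  rw [Units.val_neg, Units.val_one]
  have h1 : (-1 : ZMod f) = ((f - 1 : ℕ) : ZMod f) := by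
    rw [Nat.cast_sub (by omega)]
    simp
  have h2 : (f - 1) % f = f - 1 := Nat.mod_eq_of_lt (by omega)
  rw [h1, ZMod.val_natCast, h2]
  omega

end

universe u

variable (f : ℕ) [NeZero f] (L : Type u) [Field L] [NumberField L]
    [IsCyclotomicExtension {f} ℚ L] (K : Type*) [Field K] [NumberField K] (ι : K →+* L)

/-- a surjection onto a group with `[K:ℚ]` elements whose kernel consists of the classes which fix `K` -/
theorem exists_quot :
    ∃ (Γ : Type u) (_ : Group Γ) (_ : Fintype Γ) (π : (ZMod f)ˣ →* Γ), Function.Surjective π ∧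
      Fintype.card Γ = Module.finrank ℚ K ∧ (IsCyclic (K ≃ₐ[ℚ] K) → IsCyclic Γ) ∧
      ∀ g, π g = 1 ↔ ∀ x : K, (IsCyclotomicExtension.Rat.galEquivZMod f L).symm g (ι x) = ι x := by
  classical
  have hab : IsAbelianGalois ℚ L := IsCyclotomicExtension.isAbelianGalois {f} ℚ L
  set φ : K →ₐ[ℚ] L := ι.toRatAlgHom with hφ
  set M : IntermediateField ℚ L := φ.fieldRange with hM
  have habM : IsAbelianGalois ℚ M := IsAbelianGalois.of_algHom M.val
  have eKM : K ≃ₐ[ℚ] M := AlgEquiv.ofInjectiveField φ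
  refine ⟨Gal(M/ℚ), inferInstance, inferInstance,
    (AlgEquiv.restrictNormalHom M).comp
      (IsCyclotomicExtension.Rat.galEquivZMod f L).symm.toMonoidHom, ?_, ?_, ?_, ?_⟩
  · intro y
    obtain ⟨σ, hσ⟩ := AlgEquiv.restrictNormalHom_surjective (F := ℚ) (K₁ := M) L y
    refine ⟨IsCyclotomicExtension.Rat.galEquivZMod f L σ, ?_⟩
    rw [MonoidHom.comp_apply]
    show AlgEquiv.restrictNormalHom M ((IsCyclotomicExtension.Rat.galEquivZMod f L).symm
      (IsCyclotomicExtension.Rat.galEquivZMod f L σ)) = y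
    rw [MulEquiv.symm_apply_apply, hσ]
  · rw [← Nat.card_eq_fintype_card, IsGalois.card_aut_eq_finrank]
    exact eKM.toLinearEquiv.finrank_eq.symm
  · intro h
    exact (AlgEquiv.autCongr eKM).isCyclic.1 h
  · intro g
    have h1 : ∀ σ : Gal(L/ℚ), AlgEquiv.restrictNormalHom M σ = 1 ↔ σ ∈ M.fixingSubgroup := by
      intro σ
      rw [← IntermediateField.restrictNormalHom_ker, MonoidHom.mem_ker]
      exact Iff.rfl
    show AlgEquiv.restrictNormalHom M ((IsCyclotomicExtension.Rat.galEquivZMod f L).symm g) = 1 ↔ _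
    rw [h1, IntermediateField.mem_fixingSubgroup_iff]
    constructor
    · intro h x
      exact h (ι x) ⟨x, rfl⟩
    · rintro h _ ⟨x, rfl⟩
      exact h x

/-- some class which fixes `K` is `2` modulo `3` -/
theorem exists_two (h3 : 3 ∣ f) (hω : ∀ x : K, x ^ 2 + x + 1 ≠ 0) :
    ∃ h : (ZMod f)ˣ, (h : ZMod f).val % 3 = 2 ∧
      ∀ x : K, (IsCyclotomicExtension.Rat.galEquivZMod f L).symm h (ι x) = ι x := by
  classical
  have h1 := card_good f h3 L K ι hω
  have h2 : (0 : ℕ) < f.totient := Nat.totient_pos.2 (Nat.pos_of_ne_zero (NeZero.ne f))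
  rw [← h1] at h2
  obtain ⟨g, hg⟩ := card_pos.1 (Nat.pos_of_mul_pos_left h2)
  rw [mem_filter] at hg
  exact ⟨g, hg.2.2, hg.2.1⟩

/-- THE GOOD CLASSES. -/
theorem good_classes (h3 : 3 ∣ f) (hω : ∀ x : K, x ^ 2 + x + 1 ≠ 0) :
    ∃ A : Finset ℕ, (∀ a ∈ A, a < f ∧ a.Coprime f) ∧
      1 / (Module.finrank ℚ K : ℝ) ≤ (A.card : ℝ) / (f.totient : ℝ) ∧
      (IsCyclic (K ≃ₐ[ℚ] K) → ∀ m : ℕ, 2 ^ m ∣ Module.finrank ℚ K →
        1 - 1 / 2 ^ m ≤ (A.card : ℝ) / (f.totient : ℝ)) ∧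
      ((∀ x : K, (IsCyclotomicExtension.Rat.galEquivZMod f L).symm (-1) (ι x) = ι x) →
        A.card = f.totient) ∧
      ∀ a ∈ A, ∃ h : (ZMod f)ˣ, (h : ZMod f).val % 3 = 2 ∧
        (∀ x : K, (IsCyclotomicExtension.Rat.galEquivZMod f L).symm h (ι x) = ι x) ∧
        ∃ k : ℕ, (h : ZMod f) = (a : ZMod f) ^ k ∨ (h : ZMod f) = -(a : ZMod f) ^ k := by
  classical
  obtain ⟨Γ, _, _, π, hπ, hcard, hcyc, hker⟩ := exists_quot f L K ι
  obtain ⟨h₁, hh₁, hfix₁⟩ := exists_two f L K ι h3 hω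
  set χ := chi3 f h3 with hχ
  have hχc : χ (-1) = -1 := chi3_neg_one f h3
  have hc2 : (-1 : (ZMod f)ˣ) ^ 2 = 1 := by rw [neg_one_sq]
  have hπ₁ : π h₁ = 1 := (hker h₁).2 hfix₁
  have hχ₁ : χ h₁ = -1 := (chi3_eq f h3 h₁).2 hh₁
  set S : Finset (ZMod f)ˣ := univ.filter fun g => IsGood π χ (-1) g with hS
  have hGcard : Fintype.card (ZMod f)ˣ = f.totient := ZMod.card_units_eq_totient f
  have htot : (0 : ℝ) < (f.totient : ℝ) := by
    exact_mod_cast Nat.totient_pos.2 (Nat.pos_of_ne_zero (NeZero.ne f))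
  have hfin : (0 : ℝ) < (Module.finrank ℚ K : ℝ) := by exact_mod_cast Module.finrank_pos
  obtain ⟨h4, h5⟩ := card_image_val f S
  refine ⟨S.image fun g : (ZMod f)ˣ => (g : ZMod f).val, h5, ?_, ?_, ?_, ?_⟩
  · rw [h4]
    have h6 := good_ge π hπ χ (-1) h₁ hc2 hχc hπ₁ hχ₁
    rw [hGcard, hcard, ← hS] at h6
    rw [div_le_div_iff₀ hfin htot, one_mul]
    exact_mod_cast h6
  · intro hc m hm
    have hcy := hcyc hc
    rw [h4]
    have h6 := bad_le π hπ χ (-1) h₁ hc2 hχc hπ₁ hχ₁ m (by rw [hcard]; exact hm)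
    have h7 : S.card + (univ.filter fun g : (ZMod f)ˣ => ¬ IsGood π χ (-1) g).card = f.totient := by
      rw [hS, card_filter_add_card_filter_not, card_univ, hGcard]
    rw [hGcard] at h6
    set B := (univ.filter fun g : (ZMod f)ˣ => ¬ IsGood π χ (-1) g).card with hB
    have h8 : (S.card : ℝ) + (B : ℝ) = (f.totient : ℝ) := by exact_mod_cast h7
    have h9 : (2 : ℝ) ^ m * (B : ℝ) ≤ (f.totient : ℝ) := by exact_mod_cast h6
    have h10 : (0 : ℝ) < 2 ^ m := by positivity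
    rw [le_div_iff₀ htot, sub_mul, one_mul, ← h8]
    have h11 : (B : ℝ) ≤ 1 / 2 ^ m * ((S.card : ℝ) + (B : ℝ)) := by
      rw [h8, div_mul_eq_mul_div, one_mul, le_div_iff₀ h10, mul_comm]
      exact h9
    linarith
  · intro hreal
    rw [h4, hS]
    have h6 : (univ.filter fun g : (ZMod f)ˣ => IsGood π χ (-1) g) = univ :=
      filter_true_of_mem fun g _ => good_of_ker π χ (-1) hχc ((hker (-1)).2 hreal) g
    rw [h6, card_univ, hGcard]
  · intro a ha
    obtain ⟨g, hg, rfl⟩ := mem_image.1 ha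
    rw [hS, mem_filter] at hg
    obtain ⟨-, h, hh1, hh2, k, hk⟩ := hg
    refine ⟨h, (chi3_eq f h3 h).1 hh2, (hker h).1 hh1, k, ?_⟩
    rw [ZMod.natCast_zmod_val]
    rcases hk with hk | hk
    · left; rw [hk, Units.val_pow_eq_pow_val]
    · right; rw [hk]; simp

end Pool.Agent.H83.AB
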