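import Mathlib

/-!
# AB GoodGrp: counting good elements in a finite abelian group

`π : G → Γ` onto, `χ : G → {1,-1}`, `χ c = -1`, `c ^ 2 = 1`, some element of `ker π` with `χ = -1`.  `g` is good if some
`h ∈ ker π` with `χ h = -1` is `g ^ k` or `c g ^ k`.
-/

set_option autoImplicit false

namespace Pool.Agent.H83.AB

open Finset

variable {G Γ : Type*} [CommGroup G] [Group Γ]

/-- goodness -/
def IsGood (π : G →* Γ) (χ : G →* ℤˣ) (c g : G) : Prop :=
  ∃ h : G, π h = 1 ∧ χ h = -1 ∧ ∃ k : ℕ, h = g ^ k ∨ h = c * g ^ k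

variable [Fintype G] [Fintype Γ]

theorem card_ker (π : G →* Γ) (hπ : Function.Surjective π) [DecidablePred fun g => π g = 1] :
    (univ.filter fun g : G => π g = 1).card * Fintype.card Γ = Fintype.card G := by
  classical
  have h1 := π.ker.card_mul_index
  rw [Subgroup.index_ker, MonoidHom.range_eq_top.2 hπ, Subgroup.card_top, Nat.card_eq_fintype_card,
    Nat.card_eq_fintype_card, Nat.card_eq_fintype_card] at h1
  rw [← h1]
  congr 1
  rw [Fintype.card_subtype]
  simp only [MonoidHom.mem_ker]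

open scoped Classical in
theorem good_ge (π : G →* Γ) (hπ : Function.Surjective π) (χ : G →* ℤˣ) (c h₁ : G) (hc2 : c ^ 2 = 1)
    (hχc : χ c = -1) (hh₁ : π h₁ = 1) (hχ₁ : χ h₁ = -1) :
    Fintype.card G ≤ (univ.filter fun g : G => IsGood π χ c g).card * Fintype.card Γ := by
  rw [← card_ker π hπ]
  refine Nat.mul_le_mul_right _ ?_
  refine Finset.card_le_card_of_injOn (fun h => if χ h = -1 then h else c * (h * h₁)) ?_ ?_
  · intro h hh
    have hh : π h = 1 := by simpa using hh
    rw [mem_coe, mem_filter]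
    refine ⟨mem_univ _, ?_⟩
    simp only
    split_ifs with h1
    · exact ⟨h, hh, h1, 1, Or.inl (by rw [pow_one])⟩
    · refine ⟨h * h₁, by rw [map_mul, hh, hh₁, one_mul], ?_, 1, Or.inr ?_⟩
      · have h2 : χ h = 1 := (Int.units_eq_one_or (χ h)).resolve_right h1
        rw [map_mul, h2, hχ₁, one_mul]
      · rw [pow_one, ← mul_assoc, ← sq, hc2, one_mul]
  · intro h _ h' _ heq
    simp only at heq
    split_ifs at heq with h1 h2 h2
    · exact heq
    · exfalso
      have h3 : χ h' = 1 := (Int.units_eq_one_or (χ h')).resolve_right h2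
      rw [heq, map_mul, map_mul, hχc, h3, hχ₁] at h1
      exact absurd h1 (by decide)
    · exfalso
      have h3 : χ h = 1 := (Int.units_eq_one_or (χ h)).resolve_right h1
      rw [← heq, map_mul, map_mul, hχc, h3, hχ₁] at h2
      exact absurd h2 (by decide)
    · exact mul_right_cancel (mul_left_cancel heq)

omit [Fintype G] [Fintype Γ] in
theorem good_of_ker (π : G →* Γ) (χ : G →* ℤˣ) (c : G) (hχc : χ c = -1) (hπc : π c = 1) (g : G) :
    IsGood π χ c g :=
  ⟨c, hπc, hχc, 0, Or.inr (by rw [pow_zero, mul_one])⟩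

theorem cyc_two [IsCyclic Γ] (x y : Γ) (hx : x ^ 2 = 1) (hx1 : x ≠ 1) (hy : y ^ 2 = 1) (hy1 : y ≠ 1) :
    x = y := by
  classical
  by_contra hxy
  have h1 := IsCyclic.card_pow_eq_one_le (α := Γ) (n := 2) (by norm_num)
  have h2 : ({1, x, y} : Finset Γ) ⊆ univ.filter fun a : Γ => a ^ 2 = 1 := by
    intro z hz
    simp only [mem_insert, mem_singleton] at hz
    rw [mem_filter]
    rcases hz with rfl | rfl | rfl
    · exact ⟨mem_univ _, one_pow 2⟩
    · exact ⟨mem_univ _, hx⟩
    · exact ⟨mem_univ _, hy⟩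
  have h3 := card_le_card h2
  have h4 : ({1, x, y} : Finset Γ).card = 3 := by
    rw [card_insert_of_notMem (by simp [Ne.symm hx1, Ne.symm hy1]), card_insert_of_notMem (by simp [hxy]),
      card_singleton]
  omega

open scoped Classical in
theorem bad_le [IsCyclic Γ] (π : G →* Γ) (hπ : Function.Surjective π) (χ : G →* ℤˣ) (c h₁ : G)
    (hc2 : c ^ 2 = 1) (hχc : χ c = -1) (hh₁ : π h₁ = 1) (hχ₁ : χ h₁ = -1) (m : ℕ)
    (hm : 2 ^ m ∣ Fintype.card Γ) :
    2 ^ m * (univ.filter fun g : G => ¬ IsGood π χ c g).card ≤ Fintype.card G := by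
  by_cases hπc : π c = 1
  · have : (univ.filter fun g : G => ¬ IsGood π χ c g) = ∅ :=
      filter_eq_empty_iff.2 fun g _ => not_not.2 (good_of_ker π χ c hχc hπc g)
    rw [this, card_empty, mul_zero]
    exact Nat.zero_le _
  obtain ⟨a, n', hn', hn⟩ : ∃ a n' : ℕ, ¬ 2 ∣ n' ∧ Fintype.card Γ = 2 ^ a * n' :=
    Nat.exists_eq_pow_mul_and_not_dvd Fintype.card_ne_zero 2 (by norm_num)
  have hma : m ≤ a := by
    rw [hn] at hm
    have h1 : (2 ^ m).Coprime n' := (Nat.Prime.coprime_iff_not_dvd Nat.prime_two).2 hn' |>.pow_left m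
    exact (Nat.pow_dvd_pow_iff_le_right (by norm_num)).1 (h1.dvd_of_dvd_mul_right hm)
  have hodd : Odd n' := Nat.not_even_iff_odd.1 fun h => hn' h.two_dvd
  set T : Finset G := univ.filter fun g => π g ^ n' = 1 with hT
  set T1 : Finset G := univ.filter fun g => χ g = 1 ∧ π g ^ n' = 1 with hT1
  set T2 : Finset G := univ.filter fun g => χ g = -1 ∧ π g ^ n' = π c with hT2
  have hcc : π c ^ 2 = 1 := by rw [← map_pow, hc2, map_one]
  have hcn : π c ^ n' = π c := by
    obtain ⟨t, ht⟩ := hodd
    rw [ht, pow_add, pow_mul, hcc, one_pow, one_mul, pow_one]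
  have hsub : (univ.filter fun g : G => ¬ IsGood π χ c g) ⊆ T1 ∪ T2 := by
    intro g hg
    rw [mem_filter] at hg
    have hbad : ∀ h : G, π h = 1 → (∃ k : ℕ, h = g ^ k ∨ h = c * g ^ k) → χ h = 1 := fun h h1 h2 =>
      (Int.units_eq_one_or (χ h)).resolve_right fun h3 => hg.2 ⟨h, h1, h3, h2⟩
    set o := orderOf (π g) with ho
    have ho0 : 0 < o := orderOf_pos _
    have hon : o ∣ 2 ^ a * n' := by rw [← hn]; exact orderOf_dvd_card
    have hgo : π (g ^ o) = 1 := by rw [map_pow, ho, pow_orderOf_eq_one]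
    have hχo := hbad _ hgo ⟨o, Or.inl rfl⟩
    rw [map_pow] at hχo
    -- the even case
    have heven : ∀ r, o = 2 * r → π c = π g ^ r ∧ χ g ^ r = -1 := by
      intro r hr
      have hr0 : 0 < r := by omega
      have h1 : π g ^ r ≠ 1 := by
        intro h1
        have := orderOf_dvd_of_pow_eq_one h1
        rw [← ho] at this
        have := Nat.le_of_dvd hr0 this
        omega
      have h2 : (π g ^ r) ^ 2 = 1 := by rw [← pow_mul, mul_comm r 2, ← hr, ho, pow_orderOf_eq_one]
      have h3 : π c = π g ^ r := cyc_two _ _ hcc hπc h2 h1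
      refine ⟨h3, ?_⟩
      have h4 : π (c * g ^ r) = 1 := by rw [map_mul, map_pow, h3, ← sq, h2]
      have h5 := hbad _ h4 ⟨r, Or.inr rfl⟩
      rw [map_mul, hχc, map_pow] at h5
      rcases Int.units_eq_one_or (χ g ^ r) with h6 | h6
      · rw [h6] at h5
        exact absurd h5 (by decide)
      · exact h6
    rw [mem_union]
    rcases Int.units_eq_one_or (χ g) with h1 | h1
    · left
      rw [hT1, mem_filter]
      refine ⟨mem_univ _, h1, ?_⟩
      have h2 : ¬ 2 ∣ o := by
        rintro ⟨r, hr⟩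
        have := (heven r hr).2
        rw [h1, one_pow] at this
        exact absurd this (by decide)
      have h3 : o ∣ n' := by
        have h4 : o.Coprime (2 ^ a) :=
          ((Nat.Prime.coprime_iff_not_dvd Nat.prime_two).2 h2).symm.pow_right a
        exact h4.dvd_of_dvd_mul_left hon
      obtain ⟨s, hs⟩ := h3
      rw [hs, pow_mul, ho, pow_orderOf_eq_one, one_pow]
    · right
      rw [hT2, mem_filter]
      refine ⟨mem_univ _, h1, ?_⟩
      rw [h1] at hχo
      have h2 : 2 ∣ o := by
        by_contra h2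
        have h3 : Odd o := Nat.not_even_iff_odd.1 fun h => h2 h.two_dvd
        rw [h3.neg_one_pow] at hχo
        exact absurd hχo (by decide)
      obtain ⟨r, hr⟩ := h2
      obtain ⟨h3, h4⟩ := heven r hr
      rw [h1] at h4
      have h5 : ¬ 2 ∣ r := by
        intro h5
        rw [(even_iff_two_dvd.2 h5).neg_one_pow] at h4
        exact absurd h4 (by decide)
      have h6 : r ∣ n' := by
        have h7 : r.Coprime (2 ^ a) :=
          ((Nat.Prime.coprime_iff_not_dvd Nat.prime_two).2 h5).symm.pow_right a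
        exact h7.dvd_of_dvd_mul_left ((Dvd.intro_left 2 hr.symm).trans hon)
      obtain ⟨s, hs⟩ := h6
      have h8 : Odd s := by
        rw [hs] at hodd
        exact (Nat.odd_mul.1 hodd).2
      obtain ⟨t, ht⟩ := h8
      rw [hs, pow_mul, ← h3, ht, pow_add, pow_mul, hcc, one_pow, one_mul, pow_one]
  have h21 : T2.card ≤ T1.card := by
    refine Finset.card_le_card_of_injOn (fun g => c * g) ?_ fun g _ g' _ h => mul_left_cancel h
    intro g hg
    rw [mem_coe, hT2, mem_filter] at hg
    rw [mem_coe, hT1, mem_filter]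
    refine ⟨mem_univ _, by rw [map_mul, hχc, hg.2.1]; decide, ?_⟩
    have h1 : π (c * g) ^ n' = π c ^ n' * π g ^ n' := by
      rw [← map_pow, mul_pow, map_mul, map_pow, map_pow]
    rw [h1, hcn, hg.2.2, ← sq, hcc]
  have h1T : 2 * T1.card ≤ T.card := by
    have h1 : T1.card ≤ (T \ T1).card := by
      refine Finset.card_le_card_of_injOn (fun g => h₁ * g) ?_ fun g _ g' _ h => mul_left_cancel h
      intro g hg
      rw [mem_coe, hT1, mem_filter] at hg
      rw [mem_coe, mem_sdiff, hT, hT1, mem_filter, mem_filter]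
      refine ⟨⟨mem_univ _, by rw [map_mul, hh₁, one_mul]; exact hg.2.2⟩, ?_⟩
      rintro ⟨-, h2, -⟩
      rw [map_mul, hχ₁, hg.2.1] at h2
      exact absurd h2 (by decide)
    have h2 : T1 ⊆ T := by
      intro g hg
      rw [hT1, mem_filter] at hg
      rw [hT, mem_filter]
      exact ⟨hg.1, hg.2.2⟩
    have h3 := card_sdiff_add_card_eq_card h2
    omega
  have hTc : T.card ≤ n' * (univ.filter fun g : G => π g = 1).card := by
    have h1 : T.card = ∑ x ∈ univ.filter (fun x : Γ => x ^ n' = 1), (T.filter fun g => π g = x).card := by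
      refine card_eq_sum_card_fiberwise fun g hg => ?_
      rw [mem_coe, hT, mem_filter] at hg
      rw [mem_coe, mem_filter]
      exact ⟨mem_univ _, hg.2⟩
    rw [h1]
    have h2 : ∀ x ∈ univ.filter (fun x : Γ => x ^ n' = 1),
        (T.filter fun g => π g = x).card ≤ (univ.filter fun g : G => π g = 1).card := by
      intro x _
      have h3 := MonoidHom.card_fiber_eq_of_mem_range π (x := x) (y := 1) (hπ x) ⟨1, map_one π⟩
      rw [← h3]
      refine card_le_card ?_
      intro g hg
      rw [mem_filter] at hg ⊢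
      exact ⟨mem_univ _, hg.2⟩
    refine (sum_le_card_nsmul _ _ _ h2).trans ?_
    rw [smul_eq_mul]
    refine Nat.mul_le_mul_right _ ?_
    exact IsCyclic.card_pow_eq_one_le (α := Γ) (Nat.pos_of_ne_zero fun h => hn' (h ▸ dvd_zero 2))
  have h5 : (univ.filter fun g : G => ¬ IsGood π χ c g).card ≤ T.card := by
    have h6 := (card_le_card hsub).trans (card_union_le _ _)
    omega
  calc 2 ^ m * (univ.filter fun g : G => ¬ IsGood π χ c g).card
      ≤ 2 ^ a * (n' * (univ.filter fun g : G => π g = 1).card) :=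
        Nat.mul_le_mul (Nat.pow_le_pow_right (by norm_num) hma) (h5.trans hTc)
    _ = (univ.filter fun g : G => π g = 1).card * Fintype.card Γ := by rw [hn]; ring
    _ = Fintype.card G := card_ker π hπ

end Pool.Agent.H83.AB
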